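import Pool.Agent.AT6.Stmts3

/-!
# Squad AT6, NRP: the product of the conjugates of an element divisible by a power of `ℓ`
-/

open scoped BigOperators

noncomputable section

namespace Pool.Agent.PP.T6.H28

open Pool.Agent.PP.KF

/-- the primitive roots are the powers of one of them -/
theorem prod_un {ℓ a : ℕ} (hℓ : ℓ.Prime) (ha : 0 < a) {ζ : ℂ} (hζ : IsPrimitiveRoot ζ (ℓ ^ a))
    (F : ℂ → ℂ) : ∏ j ∈ un ℓ a, F (ζ ^ j) = ∏ ρ ∈ primitiveRoots (ℓ ^ a) ℂ, F ρ := by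
  classical
  have hn : 0 < ℓ ^ a := pow_pos hℓ.pos _
  have hcop : ∀ j : ℕ, ¬ ℓ ∣ j ↔ j.Coprime (ℓ ^ a) := by
    intro j
    rw [Nat.coprime_pow_right_iff ha, Nat.coprime_comm, hℓ.coprime_iff_not_dvd]
  refine Finset.prod_bij (fun j _ => ζ ^ j) ?_ ?_ ?_ ?_
  · intro j hj
    rw [un, Finset.mem_filter] at hj
    rw [mem_primitiveRoots hn]
    exact hζ.pow_of_coprime j ((hcop j).1 hj.2)
  · intro j hj k hk hjk
    rw [un, Finset.mem_filter, Finset.mem_range] at hj hk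
    exact hζ.pow_inj hj.1 hk.1 hjk
  · intro ρ hρ
    rw [mem_primitiveRoots hn] at hρ
    have : NeZero (ℓ ^ a) := ⟨hn.ne'⟩
    obtain ⟨j, hj, hj2, rfl⟩ := hζ.isPrimitiveRoot_iff.1 hρ
    refine ⟨j, ?_, rfl⟩
    rw [un, Finset.mem_filter, Finset.mem_range]
    exact ⟨hj, (hcop j).2 hj2⟩
  · intro j _
    rfl

/-- the product of the conjugates is an integer, not zero if one conjugate is not zero -/
theorem norm_int_gen {n : ℕ} [NeZero n] {K : Type} [Field K] [Algebra ℚ K]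
    [IsCyclotomicExtension {n} ℚ K] {ζ : K} (hζ : IsPrimitiveRoot ζ n) (f : Polynomial ℤ) {ρ₀ : ℂ}
    (h0 : IsPrimitiveRoot ρ₀ n) (hf : Polynomial.aeval ρ₀ f ≠ 0) :
    ∃ z : ℤ, z ≠ 0 ∧ ∏ ρ ∈ primitiveRoots n ℂ, Polynomial.aeval ρ f = (z : ℂ) := by
  classical
  have hirr : Irreducible (Polynomial.cyclotomic n ℚ) :=
    Polynomial.cyclotomic.irreducible_rat (NeZero.pos n)
  have hfd : FiniteDimensional ℚ K := IsCyclotomicExtension.finiteDimensional {n} ℚ K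
  have hch : CharZero K := algebraRat.charZero K
  have hσ : ∀ σ : K →ₐ[ℚ] ℂ, σ (Polynomial.aeval ζ f) = Polynomial.aeval (σ ζ) f := by
    intro σ
    rw [Polynomial.aeval_def, Polynomial.aeval_def]
    have h1 := Polynomial.hom_eval₂ f (algebraMap ℤ K) (σ : K →+* ℂ) ζ
    have h2 : (σ : K →+* ℂ).comp (algebraMap ℤ K) = algebraMap ℤ ℂ := RingHom.ext_int _ _
    rw [h2] at h1
    exact h1
  have hprod : ∏ ρ ∈ primitiveRoots n ℂ, Polynomial.aeval ρ f =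
      ∏ σ : K →ₐ[ℚ] ℂ, σ (Polynomial.aeval ζ f) := by
    rw [← Finset.prod_coe_sort (primitiveRoots n ℂ) (fun ρ => Polynomial.aeval ρ f)]
    rw [← Equiv.prod_comp (hζ.embeddingsEquivPrimitiveRoots ℂ hirr)]
    refine Finset.prod_congr rfl fun σ _ => ?_
    rw [hσ, IsPrimitiveRoot.embeddingsEquivPrimitiveRoots_apply_coe]
  have hint : IsIntegral ℤ (Polynomial.aeval ζ f) := by
    have h1 : IsIntegral ℤ ζ := hζ.isIntegral (NeZero.pos n)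
    have h2 : Polynomial.aeval ζ f ∈ Algebra.adjoin ℤ {ζ} := by
      rw [Algebra.adjoin_singleton_eq_range_aeval]
      exact ⟨f, rfl⟩
    exact IsIntegral.of_mem_of_fg _ h1.fg_adjoin_singleton _ h2
  obtain ⟨z, hz⟩ := IsIntegrallyClosed.isIntegral_iff.1 (Algebra.isIntegral_norm ℚ hint)
  have hxne : Polynomial.aeval ζ f ≠ 0 := by
    intro h
    have h1 := hσ ((hζ.embeddingsEquivPrimitiveRoots ℂ hirr).symm
      ⟨ρ₀, (mem_primitiveRoots (NeZero.pos n)).2 h0⟩)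
    rw [h, map_zero] at h1
    have h2 := IsPrimitiveRoot.embeddingsEquivPrimitiveRoots_apply_coe hζ ℂ hirr
      ((hζ.embeddingsEquivPrimitiveRoots ℂ hirr).symm
        ⟨ρ₀, (mem_primitiveRoots (NeZero.pos n)).2 h0⟩)
    rw [Equiv.apply_symm_apply] at h2
    rw [← h2] at h1
    exact hf h1.symm
  refine ⟨z, ?_, ?_⟩
  · rintro rfl
    rw [map_zero] at hz
    exact hxne (Algebra.norm_eq_zero_iff.1 hz.symm)
  · rw [hprod, ← Algebra.norm_eq_prod_embeddings, ← hz]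
    simp

theorem norm_int {n : ℕ} [NeZero n] (f : Polynomial ℤ) {ρ₀ : ℂ}
    (h0 : IsPrimitiveRoot ρ₀ n) (hf : Polynomial.aeval ρ₀ f ≠ 0) :
    ∃ z : ℤ, z ≠ 0 ∧ ∏ ρ ∈ primitiveRoots n ℂ, Polynomial.aeval ρ f = (z : ℂ) := by
  have : NeZero ((n : ℕ) : ℚ) := ⟨Nat.cast_ne_zero.2 (NeZero.ne n)⟩
  have hc := CyclotomicField.isCyclotomicExtension n ℚ
  obtain ⟨ζ, hζ⟩ := hc.exists_isPrimitiveRoot (Set.mem_singleton n) (NeZero.ne n)
  exact @norm_int_gen n _ (CyclotomicField n ℚ) _ _ hc ζ hζ f ρ₀ h0 hf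

/-- an integer divisible by `ℓ ^ N` in the local ring -/
theorem dvd_of_RM {ℓ : ℕ} (hℓ : ℓ.Prime) {M : Ideal (integralClosure ℤ ℂ)} [M.IsMaximal]
    (hM : (ℓ : integralClosure ℤ ℂ) ∈ M) (N : ℕ) : ∀ (z : ℤ) (t : ℂ), t ∈ RM M →
    (z : ℂ) = (ℓ : ℂ) ^ N * t → (ℓ : ℤ) ^ N ∣ z := by
  induction N with
  | zero =>
    intro z t _ _
    rw [pow_zero]
    exact one_dvd z
  | succ N ih =>
    intro z t ht hz
    have hl0 : (ℓ : ℂ) ≠ 0 := Nat.cast_ne_zero.2 hℓ.ne_zero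
    have h1 : (ℓ : ℂ) ^ N * t ∈ RM M :=
      (RM M).mul_mem ((RM M).pow_mem (rr_nat ℓ).1 N) ht
    have h2 : rr M (z : ℂ) = 0 := by
      have e1 : (z : ℂ) = (ℓ : ℂ) * ((ℓ : ℂ) ^ N * t) := by
        rw [hz, pow_succ]
        ring
      have e2 : rr M ((ℓ : ℂ)) = 0 := by
        have h3 := (dvd_of_rr (M := M) hℓ hM (n := (ℓ : ℤ))).2 dvd_rfl
        rwa [Int.cast_natCast] at h3
      rw [e1, rr_mul (rr_nat ℓ).1 h1, e2, zero_mul]
    obtain ⟨w, rfl⟩ := (dvd_of_rr hℓ hM).1 h2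
    have h4 : (w : ℂ) = (ℓ : ℂ) ^ N * t := by
      apply mul_left_cancel₀ hl0
      rw [← mul_assoc, ← pow_succ', ← hz]
      push_cast
      ring
    rw [pow_succ']
    exact mul_dvd_mul_left _ (ih w t ht h4)

theorem nrp : NrpStmt := by
  intro ℓ _ M _ hM a c ha ζ hζ m hdv j₀ hj₀ hne
  have hℓ : ℓ.Prime := Fact.out
  have hn : ℓ ^ a ≠ 0 := pow_ne_zero _ hℓ.ne_zero
  have : NeZero (ℓ ^ a) := ⟨hn⟩
  let f : Polynomial ℤ := ∑ i ∈ Finset.range (ℓ ^ a), Polynomial.C (m i) * Polynomial.X ^ i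
  have hf : ∀ ρ : ℂ, Polynomial.aeval ρ f = ∑ i ∈ Finset.range (ℓ ^ a), (m i : ℂ) * ρ ^ i := by
    intro ρ
    change Polynomial.aeval ρ (∑ i ∈ Finset.range (ℓ ^ a),
      Polynomial.C (m i) * Polynomial.X ^ i) = _
    rw [map_sum]
    refine Finset.sum_congr rfl fun i _ => ?_
    rw [map_mul, Polynomial.aeval_C, map_pow, Polynomial.aeval_X]
    rfl
  have hfj : ∀ j : ℕ, Polynomial.aeval (ζ ^ j) f =
      ∑ i ∈ Finset.range (ℓ ^ a), (m i : ℂ) * ζ ^ (i * j) := by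
    intro j
    rw [hf]
    refine Finset.sum_congr rfl fun i _ => ?_
    rw [← pow_mul, mul_comm j i]
  have hcop : j₀.Coprime (ℓ ^ a) := by
    rw [Nat.coprime_pow_right_iff ha, Nat.coprime_comm, hℓ.coprime_iff_not_dvd]
    exact hj₀
  obtain ⟨z, hz0, hz⟩ := norm_int f (hζ.pow_of_coprime j₀ hcop) (by rw [hfj]; exact hne)
  rw [← prod_un hℓ ha hζ (fun ρ => Polynomial.aeval ρ f)] at hz
  have hz1 : ∏ j ∈ un ℓ a, ∑ i ∈ Finset.range (ℓ ^ a), (m i : ℂ) * ζ ^ (i * j) = (z : ℂ) := by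
    rw [← hz]
    exact Finset.prod_congr rfl fun j _ => (hfj j).symm
  have hun : ∀ j ∈ un ℓ a, ¬ ℓ ∣ j := by
    intro j hj
    rw [un, Finset.mem_filter] at hj
    exact hj.2
  choose! t ht1 ht2 using hdv
  have hz2 : (z : ℂ) = (ℓ : ℂ) ^ (c * (un ℓ a).card) * ∏ j ∈ un ℓ a, t j := by
    rw [← hz1, Finset.prod_congr rfl fun j hj => ht2 j (hun j hj), Finset.prod_mul_distrib,
      Finset.prod_const, ← pow_mul]
  have hdvd := dvd_of_RM hℓ hM (c * (un ℓ a).card) z (∏ j ∈ un ℓ a, t j)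
    (Subring.prod_mem _ fun j hj => ht1 j (hun j hj)) hz2
  have h5 : ∏ j ∈ un ℓ a, ‖∑ i ∈ Finset.range (ℓ ^ a), (m i : ℂ) * ζ ^ (i * j)‖ = |(z : ℝ)| := by
    rw [← norm_prod, hz1, Complex.norm_intCast]
  rw [h5, ← pow_mul]
  have h6 : ((ℓ : ℤ) ^ (c * (un ℓ a).card)) ≤ |z| := by
    apply Int.le_of_dvd (abs_pos.2 hz0)
    rwa [dvd_abs]
  have h7 : (((ℓ : ℤ) ^ (c * (un ℓ a).card) : ℤ) : ℝ) ≤ ((|z| : ℤ) : ℝ) := Int.cast_le.2 h6
  rw [Int.cast_abs] at h7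
  refine le_trans (le_of_eq ?_) h7
  push_cast
  rfl

end Pool.Agent.PP.T6.H28
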